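import Pool.Agent.Q64.VP.Stm

/-!
# Job PT of project VP
-/

set_option autoImplicit false

namespace Pool.Agent.Q18.VP

open Pool.Agent.Q64.VP
open MeasureTheory Filter Topology Set Metric
open scoped ENNReal NNReal

/-- measurability of the potential -/
theorem meas_P {N : ℕ} (D : ℝ) (σ : Measure (E N)) [IsFiniteMeasure σ] : Measurable (P D σ) := by
  have h1 : MeasurableSet {q : (E N × ℝ) × E N | dist q.2 q.1.1 ≤ q.1.2} :=
    (isClosed_le (by fun_prop) (by fun_prop)).measurableSet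
  have h2 : Measurable fun p : E N × ℝ => σ (closedBall p.1 p.2) :=
    measurable_measure_prodMk_left h1
  have h3 : Measurable fun p : E N × ℝ =>
      σ (closedBall p.1 p.2) * ENNReal.ofReal (p.2 ^ (1 - (N : ℝ))) :=
    h2.mul (by fun_prop)
  exact h3.lintegral_prod_right'

theorem P_mono {N : ℕ} (D : ℝ) (μ ν : Measure (E N)) (a : ℝ≥0∞) (hta : a ≠ ⊤) (h : ν ≤ a • μ)
    (z : E N) : P D ν z ≤ a * P D μ z := by
  have ha : ∀ s : ℝ, ν (closedBall z s) * ENNReal.ofReal (s ^ (1 - (N : ℝ))) ≤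
      a * (μ (closedBall z s) * ENNReal.ofReal (s ^ (1 - (N : ℝ)))) := by
    intro s
    rw [← mul_assoc]
    gcongr
    have := h (closedBall z s)
    simpa using this
  unfold P
  rw [← lintegral_const_mul' _ _ hta]
  exact lintegral_mono fun s => ha s

/-- the calculation with real numbers -/
theorem real_calc (a e κ p C1 C2 C C' w θ M : ℝ) (ha : 0 ≤ a) (he1 : e < 1)
    (hκ1 : κ < 1) (hC1 : 0 ≤ C1) (hC2 : 0 ≤ C2) (hC' : 0 ≤ C')
    (hθ : θ = a * (1 - e) / (1 - κ)) (hθ1 : θ < 1)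
    (hM : M = (θ * (C1 + |C|) + C2 + C' + 1) / (1 - θ))
    (h : p ≤ κ * p + C1 + max (w + C) 0) :
    a * ((1 - e) * p) + C2 + C' ≤ max w M := by
  have h1κ : 0 < 1 - κ := by linarith
  have hθ0 : 0 ≤ θ := by
    rw [hθ]
    exact div_nonneg (mul_nonneg ha (by linarith)) h1κ.le
  have h1θ : 0 < 1 - θ := by linarith
  have hM0 : (1 - θ) * M = θ * (C1 + |C|) + C2 + C' + 1 := by
    rw [hM]; field_simp
  have hMpos : 0 < M := by
    rw [hM]
    refine div_pos ?_ h1θ
    have := abs_nonneg C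
    positivity
  have h2 : max (w + C) 0 ≤ max w 0 + |C| := by
    refine max_le ?_ ?_
    · exact add_le_add (le_max_left _ _) (le_abs_self C)
    · exact add_nonneg (le_max_right _ _) (abs_nonneg _)
  have h3 : (1 - κ) * p ≤ C1 + |C| + max w 0 := by linarith
  have h4 : a * (1 - e) * p ≤ θ * (C1 + |C| + max w 0) := by
    have h5 : a * (1 - e) * p = θ * ((1 - κ) * p) := by
      rw [hθ]; field_simp
    rw [h5]
    exact mul_le_mul_of_nonneg_left h3 hθ0
  have h6 : a * ((1 - e) * p) + C2 + C' ≤ θ * max w 0 + (1 - θ) * M := by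
    rw [hM0]
    nlinarith
  refine h6.trans ?_
  have h7 : max w 0 ≤ max w M := max_le_max le_rfl hMpos.le
  have h8 : M ≤ max w M := le_max_right _ _
  nlinarith

/-- the choice of the small number -/
theorem choice (n : ℕ) (e : ℝ) (he : 0 < e) :
    ∃ η : ℝ, 0 < η ∧ η ≤ 1 / 4 ∧ (1 + η) ^ n * (1 - e) < 1 - e / 2 := by
  have hc : ContinuousAt (fun η : ℝ => (1 + η) ^ n * (1 - e)) 0 := by fun_prop
  have h0 : (fun η : ℝ => (1 + η) ^ n * (1 - e)) 0 < 1 - e / 2 := by
    simp only [add_zero, one_pow, one_mul]; linarith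
  have h1 : ∀ᶠ η : ℝ in 𝓝 0, (1 + η) ^ n * (1 - e) < 1 - e / 2 := hc.eventually_lt_const h0
  obtain ⟨d, hd, h2⟩ := Metric.eventually_nhds_iff.1 h1
  refine ⟨min (d / 2) (1 / 4), by positivity, min_le_right _ _, h2 ?_⟩
  rw [Real.dist_eq, sub_zero, abs_of_nonneg (by positivity)]
  exact lt_of_le_of_lt (min_le_left _ _) (by linarith)

theorem ofReal_max_zero (x : ℝ) : ENNReal.ofReal x = ENNReal.ofReal (max x 0) := by
  rcases le_total x 0 with h | h
  · rw [max_eq_right h, ENNReal.ofReal_zero, ENNReal.ofReal_of_nonpos h]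
  · rw [max_eq_left h]

theorem t_PT (near : S_NEAR) (har : S_HAR) (int : S_INT) : S_PT := by
  intro N hN e he he1
  obtain ⟨η, hη, hη4, hηe⟩ := choice (N - 2) e he
  obtain ⟨κ, hκ, hnear⟩ := near N hN η (e / 2) hη hη4 (by positivity)
  refine ⟨η, κ, hη, hη4, hκ, ?_⟩
  intro D c r1 ρ0 μ F ν A u C hD hc hr1 hρ0 hμ hF hν hA hAne hνA hνμ hFμ hu C'
  obtain ⟨r2', C1, hr2', hn⟩ := hnear D μ F A ρ0 hD hμ hF hA hAne hρ0 hFμ
  obtain ⟨C2, hh⟩ := har N hN η D ν A hη hη4 hD hν hA hAne hνA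
  have hfin : ∀ᵐ z : E N, P D μ z < ⊤ :=
    ae_lt_top (meas_P D μ) (int N (by omega) D μ hμ).ne
  set a : ℝ := (1 + η) ^ (N - 2) with ha
  have ha0 : 0 ≤ a := by positivity
  set θ : ℝ := a * (1 - e) / (1 - e / 2) with hθ
  have hθ1 : θ < 1 := by
    rw [hθ, div_lt_one (by linarith)]
    exact hηe
  have hθ0 : 0 ≤ θ := by
    rw [hθ]
    exact div_nonneg (mul_nonneg ha0 (by linarith)) (by linarith)
  set M : ℝ := (θ * (C1 + |C|) + C2 + C' + 1) / (1 - θ) with hM
  have hMpos : 0 < M := by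
    rw [hM]
    refine div_pos ?_ (by linarith)
    have := abs_nonneg C
    positivity
  refine ⟨min r2' (r1 / 2), M, by positivity, hMpos, fun y hy hyr => ?_⟩
  refine (hn y hy (hyr.trans_le (min_le_left _ _))).trans ?_
  gcongr 2 * ?_
  refine measure_mono_ae ?_
  filter_upwards [hfin, hu] with z hz hzu hzm
  obtain ⟨hzb, hzP⟩ := hzm
  refine ⟨hzb, ?_⟩
  have hzr : infDist z A ≤ r1 := by
    have h1 : infDist z A ≤ infDist y A + dist z y := infDist_le_infDist_add_dist
    have h2 : dist z y < η * infDist y A := mem_ball.1 hzb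
    have h3 : infDist y A < r1 / 2 := hyr.trans_le (min_le_right _ _)
    nlinarith
  have h4 := hzu hzr
  -- to real numbers
  have h5 : P D μ z ≤ ENNReal.ofReal (e / 2) * P D μ z + C1 + ENNReal.ofReal (c * u z + C) :=
    h4.trans (by gcongr)
  set p : ℝ := (P D μ z).toReal with hp
  have hpz : P D μ z = ENNReal.ofReal p := (ENNReal.ofReal_toReal hz.ne).symm
  have hp0 : 0 ≤ p := ENNReal.toReal_nonneg
  have h6 : p ≤ e / 2 * p + C1 + max (c * u z + C) 0 := by
    rw [hpz, ← ENNReal.ofReal_mul (by positivity), ← ENNReal.ofReal_coe_nnreal (p := C1),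
      ← ENNReal.ofReal_add (by positivity) (by positivity),
      ofReal_max_zero (c * u z + C),
      ← ENNReal.ofReal_add (by positivity) (le_max_right _ _)] at h5
    exact (ENNReal.ofReal_le_ofReal_iff
      (add_nonneg (by positivity) (le_max_right _ _))).1 h5
  have h7 := real_calc a e (e / 2) p C1 C2 C C' (c * u z) θ M ha0 he1 (by linarith)
    C1.coe_nonneg C2.coe_nonneg C'.coe_nonneg hθ hθ1 hM h6
  have h8 : P D ν y ≤ ENNReal.ofReal a * (ENNReal.ofReal (1 - e) * P D μ z) + C2 := by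
    refine (hh y z hy hzb).trans ?_
    gcongr
    exact P_mono D μ ν _ ENNReal.ofReal_ne_top hνμ z
  calc P D ν y + C' ≤ ENNReal.ofReal a * (ENNReal.ofReal (1 - e) * P D μ z) + C2 + C' := by
        gcongr
    _ = ENNReal.ofReal (a * ((1 - e) * p) + C2 + C') := by
        have h1e : 0 ≤ 1 - e := by linarith
        rw [hpz, ← ENNReal.ofReal_mul h1e, ← ENNReal.ofReal_mul ha0,
          ENNReal.ofReal_add (by positivity) C'.coe_nonneg,
          ENNReal.ofReal_add (by positivity) C2.coe_nonneg,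
          ENNReal.ofReal_coe_nnreal, ENNReal.ofReal_coe_nnreal]
    _ ≤ ENNReal.ofReal (max (c * u z) M) := ENNReal.ofReal_le_ofReal h7

end Pool.Agent.Q18.VP
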